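import Pool.Agent.H447R3.NcDefs

/-!
# The trace projection of a diagonal operator: definitions
-/

open CategoryTheory AlgebraicGeometry

universe u v

namespace Pool.Agent.R911.Kn

open Pool.Agent.H914 VarClass Obj WeilCohomology

/-- The span of the endomorphisms `f z` with `S z`. -/
def spanOf {K : Type*} [Field K] {V : Type*} [AddCommGroup V] [Module K V] {I : Type*}
    (S : I → Prop) (f : I → V →ₗ[K] V) : Submodule K (V →ₗ[K] V) :=
  Submodule.span K {y | ∃ z, S z ∧ y = f z}

/-- The endomorphism `P` lies in the space `A` of endomorphisms. -/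
def LiesIn {K : Type*} [Field K] {V : Type*} [AddCommGroup V] [Module K V]
    (A : Submodule K (V →ₗ[K] V)) (P : V →ₗ[K] V) : Prop :=
  P ∈ A

/-- The endomorphism `P` acts on `U i` as multiplication by the rational number `lam i`. -/
def ActsBy {K : Type*} [Field K] {V : Type*} [AddCommGroup V] [Module K V]
    (U : ℕ → Submodule K V) (lam : ℕ → ℚ) (P : V →ₗ[K] V) : Prop :=
  ∀ i, ∀ a ∈ U i, P a = (lam i : K) • a

/-- The endomorphism `w` is a trace projection of `P` to the space `A` of endomorphisms: it lies in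
`A`, and `tr(w a) = tr(P a)` for all `a` in `A`. -/
def IsTraceProjection {K : Type*} [Field K] {V : Type*} [AddCommGroup V] [Module K V]
    (A : Submodule K (V →ₗ[K] V)) (P w : V →ₗ[K] V) : Prop :=
  w ∈ A ∧ ∀ a ∈ A, LinearMap.trace K V (w ∘ₗ a) = LinearMap.trace K V (P ∘ₗ a)

/-- The rational number `κ` is the square trace of the trace projections of `P` to `A`: there are
trace projections, and `tr(w ^ 2) = κ` for all of them. -/
def IsSquareTrace {K : Type*} [Field K] {V : Type*} [AddCommGroup V] [Module K V]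
    (A : Submodule K (V →ₗ[K] V)) (P : V →ₗ[K] V) (κ : ℚ) : Prop :=
  (∃ w, IsTraceProjection A P w) ∧
    ∀ w, IsTraceProjection A P w → LinearMap.trace K V (w ∘ₗ w) = (κ : K)

variable {k : Type u} [Field k] {𝒱 : VarClass k} {ops : CycleOps 𝒱}

/-- The endomorphisms of the vector space `H(X)`. -/
abbrev Op (W : WeilCohomology.{u, v} ops) (X : 𝒱.Obj) : Type v :=
  W.H X →ₗ[W.K] W.H X

/-- The `K`-linear span of the operators on `H(X)` induced by the algebraic cycles of codimension
`dim X` on `X × X`. -/
noncomputable def degreeZeroOps (W : WeilCohomology.{u, v} ops) (X : 𝒱.Obj) : Submodule W.K (Op W X) :=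
  spanOf (fun z => (X.prod X).IsCyc X.dim z) (fun z => W.corr (W.cl (X.prod X) z))

/-- The operator `P` is algebraic of degree zero. -/
def IsAlgebraicOp (W : WeilCohomology.{u, v} ops) (X : 𝒱.Obj) (P : Op W X) : Prop :=
  LiesIn (degreeZeroOps W X) P

/-- The operator `P` acts on `H^i(X)` as multiplication by the rational number `lam i`. -/
def IsDiagonal (W : WeilCohomology.{u, v} ops) (X : 𝒱.Obj) (lam : ℕ → ℚ) (P : Op W X) : Prop :=
  ActsBy (W.gr X) lam P

/-- The rational number `κ` is the square trace of the trace projections of `P` to the algebraic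
correspondences. -/
def IsTraceNumber (W : WeilCohomology.{u, v} ops) (X : 𝒱.Obj) (P : Op W X) (κ : ℚ) : Prop :=
  IsSquareTrace (degreeZeroOps W X) P κ

/-- The number `∑ i, lam i ^ 2 * b_i`, where `b_i` is the `i`-th Betti number. -/
noncomputable def squareSum (W : WeilCohomology.{u, v} ops) (X : 𝒱.Obj) (lam : ℕ → ℚ) : ℚ :=
  ∑ i ∈ Finset.range (2 * X.dim + 1), lam i ^ 2 * (W.betti X i : ℚ)

/-- The values of `lam` in the degrees `0, …, 2 dim X` are distinct. -/
def DistinctValues (X : 𝒱.Obj) (lam : ℕ → ℚ) : Prop :=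
  ∀ i j, i ≤ 2 * X.dim → j ≤ 2 * X.dim → lam i = lam j → i = j

/-- The Künneth conjecture: for each `i` the projector to `H^i(X)` lies in the `K`-span of the
algebraic correspondences. -/
def KunnethConjecture (W : WeilCohomology.{u, v} ops) (X : 𝒱.Obj) : Prop :=
  ∀ i : ℕ, ∃ P, IsAlgebraicOp W X P ∧ IsDiagonal W X (fun j => if j = i then 1 else 0) P

end Pool.Agent.R911.Kn
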