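import Pool.Agent.R911.Kn.Main
import Pool.Agent.R911.Kn.Defs
import Pool.Agent.R911.Num.Geo

/-!
# The trace projection of a diagonal operator: varieties
-/

open CategoryTheory AlgebraicGeometry Finset

universe u v

namespace Pool.Agent.R911.Kn

open Pool.Agent.H914 Pool.Agent.H447 VarClass Obj WeilCohomology
open Pool.Agent.R911.Num

variable {k : Type u} [Field k] {𝒱 : VarClass k} {ops : CycleOps 𝒱}
  {W : WeilCohomology.{u, v} ops} {X : 𝒱.Obj}

lemma degreeZeroOps_eq : degreeZeroOps W X = KS (ROp W X) 0 := by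
  unfold degreeZeroOps spanOf KS
  congr 1
  ext y
  constructor
  · rintro ⟨z, hz, rfl⟩
    exact rop_corr (by ring) hz
  · intro hy
    obtain ⟨z, hz, rfl⟩ := exists_of_rop (p := X.dim) (by ring) hy
    exact ⟨z, hz, rfl⟩

lemma isDiagonal_iff {lam : ℕ → ℚ} {P : Module.End W.K (W.H X)} :
    IsDiagonal W X lam P ↔ P = scal (W.isInternal X) (fun i => (lam i : W.K)) := by
  constructor
  · intro h
    apply gr_ext (W.isInternal X)
    intro i a ha
    rw [h i a ha, scal_apply _ _ ha]
  · rintro rfl i a ha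
    rw [scal_apply _ _ ha]

lemma kunneth_iff : KunnethConjecture W X ↔ ∀ i, proj (W.isInternal X) i ∈ KS (ROp W X) 0 := by
  have h1 : ∀ i, proj (W.isInternal X) i =
      scal (W.isInternal X) (fun j => (((if j = i then 1 else 0 : ℚ)) : W.K)) := by
    intro i
    apply gr_ext (W.isInternal X)
    intro j a ha
    rw [scal_apply _ _ ha]
    by_cases hj : j = i
    · subst hj
      rw [proj_same _ ha, if_pos rfl, Rat.cast_one, one_smul]
    · rw [proj_ne _ ha hj, if_neg hj, Rat.cast_zero, zero_smul]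
  constructor
  · intro h i
    obtain ⟨π, hπ, hπ'⟩ := h i
    rw [isDiagonal_iff, ← h1] at hπ'
    rw [← hπ', ← degreeZeroOps_eq]
    exact hπ
  · intro h i
    refine ⟨proj (W.isInternal X) i, ?_, ?_⟩
    · unfold IsAlgebraicOp LiesIn; rw [degreeZeroOps_eq]; exact h i
    · rw [isDiagonal_iff]; exact h1 i

/-- **The main theorem.** -/
theorem kunneth_numbers (lam : ℕ → ℚ) : ∃ (κ : ℚ) (P : Op W X),
    IsDiagonal W X lam P ∧ IsTraceNumber W X P κ ∧
      0 ≤ κ ∧ κ ≤ squareSum W X lam ∧ (IsAlgebraicOp W X P ↔ κ = squareSum W X lam) ∧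
      (DistinctValues X lam → (KunnethConjecture W X ↔ κ = squareSum W X lam)) := by
  have hR := rop_opAlg (W := W) (X := X)
  have h := W.isInternal X
  obtain ⟨w, hw, hw'⟩ := exists_proj hR h (fun i => (lam i : W.K))
  obtain ⟨p, hp0, hp, hple, hpeq⟩ := norm_ineq hR h W_hbd lam hw hw'
  have hsum : squareSum W X lam =
      ∑ i ∈ range (2 * X.dim + 1), lam i ^ 2 * (Module.finrank W.K (W.gr X i) : ℚ) := rfl
  have hpu : ∀ v, IsTraceProjection (degreeZeroOps W X) (scal h (fun i => (lam i : W.K))) v →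
      LinearMap.trace W.K (W.H X) (v ∘ₗ v) = (p : W.K) := by
    rintro v ⟨hv, hv'⟩
    rw [degreeZeroOps_eq] at hv
    rw [← hp]
    apply norm_unique hv hw _ hw'
    intro a ha
    exact hv' a (by rw [degreeZeroOps_eq]; exact ha)
  have hmem : scal h (fun i => (lam i : W.K)) ∈ KS (ROp W X) 0 ↔ p = squareSum W X lam := by
    constructor
    · intro hm
      have h1 := hpu _ ⟨by rw [degreeZeroOps_eq]; exact hm, fun a _ => rfl⟩
      have h2 : LinearMap.trace W.K (W.H X) (scal h (fun i => (lam i : W.K)) *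
          scal h (fun i => (lam i : W.K))) = ((squareSum W X lam : ℚ) : W.K) := by
        rw [scal_mul, trace_scal h W_hbd, hsum]
        push_cast
        apply Finset.sum_congr rfl
        intro i _
        rw [sq]
      have h3 : ((squareSum W X lam : ℚ) : W.K) = (p : W.K) := by rw [← h2]; exact h1
      exact_mod_cast h3.symm
    · intro he
      exact hpeq (by rw [he, hsum])
  refine ⟨p, scal h (fun i => (lam i : W.K)), isDiagonal_iff.2 rfl, ⟨⟨w, ?_, ?_⟩, hpu⟩, hp0, ?_, ?_,
    ?_⟩
  · rw [degreeZeroOps_eq]; exact hw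
  · intro a ha
    rw [degreeZeroOps_eq] at ha
    exact hw' a ha
  · rw [hsum]; exact hple
  · unfold IsAlgebraicOp LiesIn; rw [degreeZeroOps_eq]; exact hmem
  · intro hinj'
    have hinj : Set.InjOn lam (Finset.range (2 * X.dim + 1)) := by
      intro i hi j hj hij
      rw [Finset.mem_coe, Finset.mem_range] at hi hj
      exact hinj' i j (by omega) (by omega) hij
    rw [kunneth_iff, ← hmem]
    exact ⟨scal_mem_of_proj h W_hbd _, fun hH => proj_mem_of_scal hR h W_hbd lam hinj hH⟩

end Pool.Agent.R911.Kn
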