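import Pool.Agent.R911.Kn.Spec
import Pool.Agent.R911.Num.Main

/-!
# The trace projection of a diagonal operator: graded algebras of operators
-/

open Polynomial Finset

namespace Pool.Agent.R911.Kn

open Pool.Agent.H914 Pool.Agent.H447 Pool.Agent.R911.Num

variable {K : Type*} [Field K] [CharZero K] {V : Type*} [AddCommGroup V] [Module K V]
  [Module.Finite K V] {gr : ℕ → Submodule K V} {n : ℕ} {R : ℤ → Module.End K V → Prop}

section

variable (hR : OpAlg gr R) (h : DirectSum.IsInternal gr)

include hR h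

omit [Module.Finite K V] in
/-- Operators of degree zero in the algebra commute with diagonal operators. -/
lemma comm_scal (f : ℕ → K) {a : Module.End K V} (ha : a ∈ KS R 0) : Commute (scal h f) a := by
  have h1 : IsHom gr 0 a := by simpa using hR.kspan.hom ha
  apply gr_ext h
  intro i x hx
  have h2 := h1 i x (by rw [grZ_natCast]; exact hx)
  rw [add_zero, grZ_natCast] at h2
  rw [Module.End.mul_apply, Module.End.mul_apply, scal_apply h f h2, scal_apply h f hx, map_smul]

omit h [Module.Finite K V] in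
lemma pow_mem {a : Module.End K V} (ha : a ∈ KS R 0) (k : ℕ) : a ^ k ∈ KS R 0 :=
  hR.kspan.cast (hR.kspan.pow ha k) (by simp)

/-- **Existence of the trace projection.** -/
theorem exists_proj (f : ℕ → K) : ∃ w ∈ KS R 0, ∀ a ∈ KS R 0,
    LinearMap.trace K V (w * a) = LinearMap.trace K V (scal h f * a) := by
  obtain ⟨w, hw, hw'⟩ := exists_rep_of_orth
    ((LinearMap.mul K (Module.End K V)).compr₂ (LinearMap.trace K V)) (KS R 0) (KS R 0)
    (LinearMap.trace K V ∘ₗ LinearMap.mulLeft K (scal h f)) (by
      intro γ hγ horth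
      change LinearMap.trace K V (scal h f * γ) = 0
      have h1 : IsNilpotent γ := by
        apply isNilpotent_of_trace_pow
        intro r
        rw [pow_succ]
        exact horth _ (pow_mem hR hγ r)
      have h2 : IsNilpotent (scal h f * γ) := by
        obtain ⟨N, hN⟩ := h1
        refine ⟨N, ?_⟩
        rw [(comm_scal hR h f hγ).mul_pow, hN, mul_zero]
      exact (LinearMap.isNilpotent_trace_of_isNilpotent h2).eq_zero)
  exact ⟨w, hw, hw'⟩

/-- **The inequality.** -/
theorem norm_ineq (hbd : ∀ i, 2 * n + 1 ≤ i → gr i = ⊥) (lam : ℕ → ℚ) {w : Module.End K V}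
    (hw : w ∈ KS R 0) (hw' : ∀ a ∈ KS R 0, LinearMap.trace K V (w * a) =
      LinearMap.trace K V (scal h (fun i => (lam i : K)) * a)) :
    ∃ p : ℚ, 0 ≤ p ∧ LinearMap.trace K V (w * w) = p ∧
      p ≤ ∑ i ∈ range (2 * n + 1), lam i ^ 2 * (Module.finrank K (gr i) : ℚ) ∧
      (p = ∑ i ∈ range (2 * n + 1), lam i ^ 2 * (Module.finrank K (gr i) : ℚ) →
        scal h (fun i => (lam i : K)) ∈ KS R 0) := by
  set H := scal h (fun i => (lam i : K)) with hH
  have hHs : H = ∑ i ∈ range (2 * n + 1), (lam i : K) • proj h i := scal_eq_sum h hbd _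
  have hwh : IsHom gr 0 w := by simpa using hR.kspan.hom hw
  have hc : ∀ i, Commute w (proj h i) := fun i => (hwh.proj_comm h i).symm
  have hTr : ∀ k : ℕ, LinearMap.trace K V ((w - H) * w ^ k) = 0 := by
    intro k
    rw [sub_mul, map_sub, hw' _ (pow_mem hR hw k), sub_self]
  obtain ⟨q, p, hq0, hp0, hq, hp, hq'⟩ := sq_trace (projSys h hbd) lam hc hHs hTr
  have hHH : LinearMap.trace K V (H * H) =
      ((∑ i ∈ range (2 * n + 1), lam i ^ 2 * (Module.finrank K (gr i) : ℚ) : ℚ) : K) := by
    rw [hH, scal_mul, trace_scal h hbd]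
    push_cast
    apply Finset.sum_congr rfl
    intro i _
    rw [sq]
  have h1 : LinearMap.trace K V ((w - H) * (w - H)) =
      LinearMap.trace K V (H * H) - LinearMap.trace K V (w * w) := by
    have e : (w - H) * (w - H) = w * w - w * H - (H * w - H * H) := by noncomm_ring
    have e1 : LinearMap.trace K V (H * w) = LinearMap.trace K V (w * w) := (hw' w hw).symm
    rw [e, map_sub, map_sub, map_sub, LinearMap.trace_mul_comm K w H, e1]
    ring
  rw [hq, hHH, hp] at h1
  have h2 : q = (∑ i ∈ range (2 * n + 1), lam i ^ 2 * (Module.finrank K (gr i) : ℚ)) - p := by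
    exact_mod_cast h1
  refine ⟨p, hp0, hp, by linarith, fun h3 => ?_⟩
  have h4 := H_mem (projSys h hbd) _ hHs hc (hq' (by rw [h2, h3, sub_self]))
  rw [Algebra.adjoin_singleton_eq_range_aeval] at h4
  obtain ⟨P, hP⟩ := h4
  rw [← hP]
  exact hR.kspan_aeval hw P

omit [CharZero K] [Module.Finite K V] hR h in
/-- Uniqueness of the norm. -/
lemma norm_unique {H w w' : Module.End K V} (hw : w ∈ KS R 0) (hw' : w' ∈ KS R 0)
    (h1 : ∀ a ∈ KS R 0, LinearMap.trace K V (w * a) = LinearMap.trace K V (H * a))
    (h2 : ∀ a ∈ KS R 0, LinearMap.trace K V (w' * a) = LinearMap.trace K V (H * a)) :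
    LinearMap.trace K V (w * w) = LinearMap.trace K V (w' * w') := by
  rw [h1 w hw, h2 w' hw', ← h2 w hw, ← h1 w' hw', LinearMap.trace_mul_comm]

/-- The projectors are in the algebra if one diagonal operator with distinct eigenvalues is. -/
theorem proj_mem_of_scal (hbd : ∀ i, 2 * n + 1 ≤ i → gr i = ⊥) (lam : ℕ → ℚ)
    (hinj : Set.InjOn lam (range (2 * n + 1)))
    (hH : scal h (fun i => (lam i : K)) ∈ KS R 0) (i : ℕ) : proj h i ∈ KS R 0 := by
  by_cases hi : i < 2 * n + 1
  · have hHs := scal_eq_sum h hbd (fun i => (lam i : K))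
    have hi' : i ∈ range (2 * n + 1) := Finset.mem_range.2 hi
    have hinj' : Set.InjOn (fun i => (lam i : K)) (range (2 * n + 1)) := by
      intro a ha b hb hab
      have hab' : ((lam a : ℚ) : K) = ((lam b : ℚ) : K) := hab
      exact hinj ha hb (by exact_mod_cast hab')
    have h1 : aeval (scal h (fun i => (lam i : K)))
        (Lagrange.basis (range (2 * n + 1)) (fun i => (lam i : K)) i) = proj h i := by
      conv_lhs => rw [← mul_one (aeval _ _), ← (projSys h hbd).sum, Finset.mul_sum]
      rw [Finset.sum_eq_single i]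
      · rw [H_semisimple_aux (projSys h hbd) _ _ hHs hi', Lagrange.eval_basis_self hinj' hi',
          one_smul]
      · intro j hj hne
        have h2 := Lagrange.eval_basis_of_ne (v := fun i => ((lam i : ℚ) : K)) hne.symm hj
        rw [H_semisimple_aux (projSys h hbd) _ _ hHs hj, h2, zero_smul]
      · intro h'; exact absurd hi' h'
    rw [← h1]
    exact hR.kspan_aeval hH _
  · have : proj h i = 0 := by
      apply gr_ext h
      intro j a ha
      by_cases hj : j = i
      · subst hj
        rw [hbd j (by omega)] at ha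
        rw [(Submodule.mem_bot _).1 ha, map_zero, map_zero]
      · rw [proj_ne h ha hj, LinearMap.zero_apply]
    rw [this]
    exact Submodule.zero_mem _

omit [CharZero K] [Module.Finite K V] hR in
theorem scal_mem_of_proj (hbd : ∀ i, 2 * n + 1 ≤ i → gr i = ⊥) (f : ℕ → K)
    (hP : ∀ i, proj h i ∈ KS R 0) : scal h f ∈ KS R 0 := by
  rw [scal_eq_sum h hbd]
  exact Submodule.sum_mem _ fun i _ => Submodule.smul_mem _ _ (hP i)

end

end Pool.Agent.R911.Kn
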