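import Pool.Agent.H447R3.SpA
import Pool.Agent.R911.Num.Spec

/-!
# The trace projection of a diagonal operator with rational eigenvalues
-/

open Polynomial Finset TensorProduct

namespace Pool.Agent.R911.Kn

open Pool.Agent.H914 Pool.Agent.H447 Pool.Agent.R911.Num

variable {K : Type*} [Field K] [CharZero K] {V : Type*} [AddCommGroup V] [Module K V]
  [Module.Finite K V]

/-- Over an algebraically closed field. -/
theorem sq_closed [IsAlgClosed K] {P : ℕ → Module.End K V} {m : ℕ} (hP : ProjSys P m)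
    (lam : ℕ → ℚ) {T H : Module.End K V} (hT : ∀ i, Commute T (P i))
    (hH : H = ∑ i ∈ range m, (lam i : K) • P i)
    (hTr : ∀ k : ℕ, LinearMap.trace K V ((T - H) * T ^ k) = 0) :
    ∃ q p : ℚ, 0 ≤ q ∧ 0 ≤ p ∧ LinearMap.trace K V ((T - H) * (T - H)) = q ∧
      LinearMap.trace K V (T * T) = p ∧ (q = 0 → IsNilpotent (T - H)) := by
  obtain ⟨s, E, N, hEp, hE1, hEE, hEN⟩ := exists_spectral T
  have hTE : ∀ ν, Commute T (E ν) := by
    intro ν
    obtain ⟨p, hp⟩ := hEp ν
    rw [hp]; exact comm_aeval (Commute.refl T) p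
  have hPE : ∀ i ν, Commute (P i) (E ν) := by
    intro i ν
    obtain ⟨p, hp⟩ := hEp ν
    rw [hp]; exact comm_aeval (hT i).symm p
  set r : K → ℕ → ℕ := fun ν i => Module.finrank K (LinearMap.range (P i * E ν)) with hr
  have hidem : ∀ ν ∈ s, ∀ i, P i * E ν * (P i * E ν) = P i * E ν := by
    intro ν hν i
    calc P i * E ν * (P i * E ν) = P i * (E ν * P i) * E ν := by simp only [mul_assoc]
      _ = (P i * P i) * (E ν * E ν) := by rw [← (hPE i ν).eq]; simp only [mul_assoc]
      _ = P i * E ν := by rw [hP.idem, hEE ν hν]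
  have htr : ∀ ν ∈ s, ∀ i, LinearMap.trace K V (P i * E ν) = (r ν i : K) := fun ν hν i =>
    trace_idem (hidem ν hν i)
  have hHP : ∀ i ∈ range m, H * P i = (lam i : K) • P i := by
    intro i hi
    rw [hH, Finset.sum_mul, Finset.sum_eq_single i]
    · rw [smul_mul_assoc, hP.idem]
    · intro j _ hj
      rw [smul_mul_assoc, hP.orth j i hj, smul_zero]
    · intro h; exact absurd hi h
  have hcP : ∀ i ∈ range m, (T - H) * P i = (T - algebraMap K (Module.End K V) (lam i)) * P i := by
    intro i hi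
    rw [sub_mul, hHP i hi, sub_mul, ← Algebra.smul_def]
  have e2 : ∀ ν ∈ s, ∀ i (S : Module.End K V), Commute S T → Commute S (E ν) →
      LinearMap.trace K V (S * ((T - algebraMap K (Module.End K V) (lam i)) * E ν)) =
        (ν - lam i) * LinearMap.trace K V (S * E ν) := by
    intro ν hν i S h3 h4
    rw [sub_mul, mul_sub, map_sub, trace_spectral h3 h4 (hTE ν) (hEN ν hν),
      ← Algebra.smul_def, mul_smul_comm, map_smul, smul_eq_mul, sub_mul]
  have hB : ∀ ν ∈ s, ∀ i ∈ range m, LinearMap.trace K V ((T - H) * (T - H) * (P i * E ν)) =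
      (ν - lam i) ^ 2 * (r ν i : K) := by
    intro ν hν i hi
    set a : Module.End K V := algebraMap K (Module.End K V) (lam i) with ha
    have hca : ∀ x : Module.End K V, Commute a x := fun x => Algebra.commutes _ x
    have hcP' : (T - a) * P i = P i * (T - a) :=
      (((hT i).sub_left (hca (P i))).eq)
    have e1 : (T - H) * (T - H) * (P i * E ν) = P i * (T - a) * ((T - a) * E ν) := by
      calc (T - H) * (T - H) * (P i * E ν) = (T - H) * ((T - H) * P i) * E ν := by
            simp only [mul_assoc]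
        _ = (T - H) * (P i * (T - a)) * E ν := by rw [hcP i hi, hcP']
        _ = ((T - H) * P i) * (T - a) * E ν := by simp only [mul_assoc]
        _ = P i * (T - a) * ((T - a) * E ν) := by rw [hcP i hi, hcP']; simp only [mul_assoc]
    have hS : Commute (P i * (T - a)) T :=
      (hT i).symm.mul_left ((Commute.refl T).sub_left (hca T))
    have hS' : Commute (P i * (T - a)) (E ν) :=
      (hPE i ν).mul_left ((hTE ν).sub_left (hca (E ν)))
    rw [e1, e2 ν hν i _ hS hS', mul_assoc (P i), e2 ν hν i _ (hT i).symm (hPE i ν), htr ν hν i]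
    ring
  have hB1 : ∀ ν ∈ s, ∀ i ∈ range m, LinearMap.trace K V ((T - H) * (P i * E ν)) =
      (ν - lam i) * (r ν i : K) := by
    intro ν hν i hi
    set a : Module.End K V := algebraMap K (Module.End K V) (lam i) with ha
    have hca : ∀ x : Module.End K V, Commute a x := fun x => Algebra.commutes _ x
    have hcP' : (T - a) * P i = P i * (T - a) :=
      (((hT i).sub_left (hca (P i))).eq)
    have e1 : (T - H) * (P i * E ν) = P i * ((T - a) * E ν) := by
      rw [← mul_assoc, hcP i hi, hcP', mul_assoc]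
    rw [e1, e2 ν hν i _ (hT i).symm (hPE i ν), htr ν hν i]
  have hdecomp : ∀ x : Module.End K V, x = ∑ ν ∈ s, ∑ i ∈ range m, x * (P i * E ν) := by
    intro x
    conv_lhs => rw [← mul_one x, ← hE1, Finset.mul_sum]
    apply Finset.sum_congr rfl
    intro ν _
    conv_lhs => rw [← one_mul (E ν), ← hP.sum, Finset.sum_mul, Finset.mul_sum]
  have hC : LinearMap.trace K V ((T - H) * (T - H)) =
      ∑ ν ∈ s, ∑ i ∈ range m, (ν - lam i) ^ 2 * (r ν i : K) := by
    conv_lhs => rw [hdecomp ((T - H) * (T - H)), map_sum]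
    apply Finset.sum_congr rfl
    intro ν hν
    rw [map_sum]
    exact Finset.sum_congr rfl (fun i hi => (hB ν hν i hi))
  -- rationality
  have hint : ∀ ν ∈ s, ∑ i ∈ range m, (ν - lam i) * (r ν i : K) = 0 := by
    intro ν hν
    obtain ⟨p, hp⟩ := hEp ν
    have h1 : LinearMap.trace K V ((T - H) * E ν) = 0 := by
      rw [hp]; exact trace_aeval hTr p
    have h2 : (T - H) * E ν = ∑ i ∈ range m, (T - H) * (P i * E ν) := by
      conv_lhs => rw [← one_mul (E ν), ← hP.sum, Finset.sum_mul, Finset.mul_sum]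
    rw [h2, map_sum] at h1
    rw [← h1]
    exact Finset.sum_congr rfl (fun i hi => (hB1 ν hν i hi).symm)
  set q : K → ℚ := fun ν => (∑ i ∈ range m, lam i * (r ν i : ℚ)) / (∑ i ∈ range m, (r ν i : ℚ))
    with hq
  have hqν : ∀ ν ∈ s, ∀ i ∈ range m, r ν i ≠ 0 → ν = (q ν : K) := by
    intro ν hν i hi h0
    have h1 : (∑ i ∈ range m, (r ν i : ℚ)) ≠ 0 := by
      apply ne_of_gt
      apply Finset.sum_pos'
      · intro j _; exact Nat.cast_nonneg _
      · exact ⟨i, hi, by exact_mod_cast Nat.pos_of_ne_zero h0⟩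
    have h2 := hint ν hν
    have h3 : ν * ((∑ i ∈ range m, (r ν i : ℚ) : ℚ) : K) =
        ((∑ i ∈ range m, lam i * (r ν i : ℚ) : ℚ) : K) := by
      push_cast
      rw [Finset.mul_sum, ← sub_eq_zero, ← Finset.sum_sub_distrib, ← h2]
      apply Finset.sum_congr rfl
      intro j _
      ring
    rw [hq]
    beta_reduce
    rw [Rat.cast_div, eq_div_iff (by exact_mod_cast h1)]
    exact h3
  have hterm : ∀ ν ∈ s, ∀ i ∈ range m, (ν - lam i) ^ 2 * (r ν i : K) =
      (((q ν - lam i) ^ 2 * (r ν i : ℚ) : ℚ) : K) := by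
    intro ν hν i hi
    by_cases h0 : r ν i = 0
    · rw [h0]; simp
    · push_cast
      rw [← hqν ν hν i hi h0]
  have hterm2 : ∀ ν ∈ s, ∀ i ∈ range m, ν ^ 2 * (r ν i : K) =
      (((q ν) ^ 2 * (r ν i : ℚ) : ℚ) : K) := by
    intro ν hν i hi
    by_cases h0 : r ν i = 0
    · rw [h0]; simp
    · push_cast
      rw [← hqν ν hν i hi h0]
  have hT2 : LinearMap.trace K V (T * T) = ∑ ν ∈ s, ∑ i ∈ range m, ν ^ 2 * (r ν i : K) := by
    have h1 : T * T = ∑ ν ∈ s, T * (T * E ν) := by
      conv_lhs => rw [← mul_one (T * T), ← hE1, Finset.mul_sum]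
      exact Finset.sum_congr rfl (fun ν _ => mul_assoc _ _ _)
    rw [h1, map_sum]
    apply Finset.sum_congr rfl
    intro ν hν
    have h2 : E ν = ∑ i ∈ range m, P i * E ν := by
      conv_lhs => rw [← one_mul (E ν), ← hP.sum, Finset.sum_mul]
    rw [trace_spectral (Commute.refl T) (hTE ν) (hTE ν) (hEN ν hν)]
    have h3 := trace_spectral (Commute.one_left T) (Commute.one_left (E ν)) (hTE ν) (hEN ν hν)
    rw [one_mul, one_mul] at h3
    rw [h3, ← mul_assoc, ← sq]
    conv_lhs => rw [h2, map_sum, Finset.mul_sum]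
    exact Finset.sum_congr rfl (fun i hi => by rw [htr ν hν i])
  have hnn : ∀ ν i, 0 ≤ (q ν - lam i) ^ 2 * (r ν i : ℚ) := fun ν i => by positivity
  have hnn2 : ∀ ν i, 0 ≤ (q ν) ^ 2 * (r ν i : ℚ) := fun ν i => by positivity
  refine ⟨∑ ν ∈ s, ∑ i ∈ range m, (q ν - lam i) ^ 2 * (r ν i : ℚ),
    ∑ ν ∈ s, ∑ i ∈ range m, (q ν) ^ 2 * (r ν i : ℚ),
    Finset.sum_nonneg (fun ν _ => Finset.sum_nonneg (fun i _ => hnn ν i)),
    Finset.sum_nonneg (fun ν _ => Finset.sum_nonneg (fun i _ => hnn2 ν i)), ?_, ?_, ?_⟩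
  · rw [hC, Rat.cast_sum]
    apply Finset.sum_congr rfl
    intro ν hν
    rw [Rat.cast_sum]
    exact Finset.sum_congr rfl (fun i hi => hterm ν hν i hi)
  · rw [hT2, Rat.cast_sum]
    apply Finset.sum_congr rfl
    intro ν hν
    rw [Rat.cast_sum]
    exact Finset.sum_congr rfl (fun i hi => hterm2 ν hν i hi)
  intro hD
  have hE : ∀ ν ∈ s, ∀ i ∈ range m, r ν i = 0 ∨ ν = lam i := by
    intro ν hν i hi
    by_cases h0 : r ν i = 0
    · exact Or.inl h0
    · right
      have h3 := (Finset.sum_eq_zero_iff_of_nonneg (fun ν _ => Finset.sum_nonneg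
        (fun i _ => hnn ν i))).1 hD ν hν
      have h4 := (Finset.sum_eq_zero_iff_of_nonneg (fun i _ => hnn ν i)).1 h3 i hi
      have h5 : (q ν - lam i) ^ 2 = 0 := (mul_eq_zero.1 h4).resolve_right (by exact_mod_cast h0)
      have h6 : q ν = lam i := by
        have := pow_eq_zero_iff (two_ne_zero) |>.1 h5
        linarith
      rw [hqν ν hν i hi h0, h6]
  refine ⟨N, ?_⟩
  rw [hdecomp ((T - H) ^ N)]
  apply Finset.sum_eq_zero
  intro ν hν
  apply Finset.sum_eq_zero
  intro i hi
  rcases hE ν hν i hi with h0 | h0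
  · have : P i * E ν = 0 := by
      apply eq_zero_of_idem_of_trace_eq_zero (hidem ν hν i)
      rw [htr ν hν i, h0, Nat.cast_zero]
    rw [this, mul_zero]
  · have hpow : ∀ k : ℕ, (T - H) ^ k * P i = (T - algebraMap K (Module.End K V) ν) ^ k * P i := by
      intro k
      induction k with
      | zero => simp
      | succ k ih =>
        have hc : (T - algebraMap K (Module.End K V) ν) * P i =
            P i * (T - algebraMap K (Module.End K V) ν) :=
          ((hT i).sub_left (Algebra.commutes ν (P i))).eq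
        rw [pow_succ, mul_assoc, hcP i hi, ← h0, hc, ← mul_assoc, ih, pow_succ, mul_assoc,
          mul_assoc, hc]
    rw [← mul_assoc, hpow, mul_assoc, (hPE i ν).eq, ← mul_assoc, hEN ν hν, zero_mul]

/-- The general case. -/
theorem sq_trace {P : ℕ → Module.End K V} {m : ℕ} (hP : ProjSys P m)
    (lam : ℕ → ℚ) {T H : Module.End K V} (hT : ∀ i, Commute T (P i))
    (hH : H = ∑ i ∈ range m, (lam i : K) • P i)
    (hTr : ∀ k : ℕ, LinearMap.trace K V ((T - H) * T ^ k) = 0) :
    ∃ q p : ℚ, 0 ≤ q ∧ 0 ≤ p ∧ LinearMap.trace K V ((T - H) * (T - H)) = q ∧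
      LinearMap.trace K V (T * T) = p ∧ (q = 0 → IsNilpotent (T - H)) := by
  set Kb := AlgebraicClosure K
  obtain ⟨q, p, hq0, hp0, hq1, hp1, hq2⟩ := sq_closed (K := Kb) (V := Kb ⊗[K] V)
    (P := fun i => (P i).baseChange Kb) (m := m)
    ⟨fun i => by rw [← bc_mul, hP.idem], fun i j hij => by rw [← bc_mul, hP.orth i j hij, bc_zero],
      by
        have := congrArg (fun F => Module.End.baseChangeHom K Kb V F) hP.sum
        rw [map_sum, map_one] at this
        exact this⟩ lam (T := T.baseChange Kb) (H := H.baseChange Kb)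
    (fun i => by
      have := (hT i).eq
      rw [Commute, SemiconjBy, ← bc_mul, ← bc_mul, this])
    (by
      have h3 := congrArg (fun F => Module.End.baseChangeHom K Kb V F) hH
      rw [map_sum] at h3
      refine h3.trans (Finset.sum_congr rfl (fun i _ => ?_))
      have h4 := bc_smul Kb ((lam i : K)) (P i)
      rw [map_ratCast] at h4
      exact h4)
    (fun k => by
      rw [← bc_sub, ← bc_pow, ← bc_mul, LinearMap.trace_baseChange, hTr, map_zero])
  have hinj := (algebraMap K Kb).injective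
  refine ⟨q, p, hq0, hp0, ?_, ?_, fun h0 => ?_⟩
  · rw [← bc_sub, ← bc_mul] at hq1
    have h3 := LinearMap.trace_baseChange ((T - H) * (T - H)) Kb
    rw [hq1, ← map_ratCast (algebraMap K Kb) q] at h3
    exact (hinj h3).symm
  · rw [← bc_mul] at hp1
    have h3 := LinearMap.trace_baseChange (T * T) Kb
    rw [hp1, ← map_ratCast (algebraMap K Kb) p] at h3
    exact (hinj h3).symm
  · obtain ⟨N, hN⟩ := hq2 h0
    refine ⟨N, bc_inj Kb ?_⟩
    rw [bc_pow, bc_sub, hN, bc_zero]

omit [CharZero K] [Module.Finite K V] in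
lemma H_semisimple_aux {P : ℕ → Module.End K V} {m : ℕ} (hP : ProjSys P m) (lam : ℕ → K)
    (p : K[X]) {H : Module.End K V} (hH : H = ∑ i ∈ range m, lam i • P i) {i : ℕ}
    (hi : i ∈ range m) : aeval H p * P i = p.eval (lam i) • P i := by
  have h1 : H * P i = lam i • P i := by
    rw [hH, Finset.sum_mul, Finset.sum_eq_single i]
    · rw [smul_mul_assoc, hP.idem]
    · intro j _ hj
      rw [smul_mul_assoc, hP.orth j i hj, smul_zero]
    · intro h; exact absurd hi h
  have h2 : ∀ k : ℕ, H ^ k * P i = (lam i ^ k) • P i := by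
    intro k
    induction k with
    | zero => simp
    | succ k ih => rw [pow_succ, mul_assoc, h1, mul_smul_comm, ih, smul_smul, pow_succ, mul_comm]
  induction p using Polynomial.induction_on' with
  | add p q hp hq => rw [map_add, add_mul, hp, hq, eval_add, add_smul]
  | monomial k c =>
    rw [aeval_monomial, mul_assoc, h2, mul_smul_comm, ← Algebra.smul_def, smul_smul,
      eval_monomial, mul_comm]

/-- A diagonal operator is semisimple. -/
lemma H_semisimple {P : ℕ → Module.End K V} {m : ℕ} (hP : ProjSys P m) (lam : ℕ → K)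
    {H : Module.End K V} (hH : H = ∑ i ∈ range m, lam i • P i) : H.IsSemisimple := by
  classical
  set S : Finset K := (range m).image lam with hS
  apply Module.End.isSemisimple_of_squarefree_aeval_eq_zero (p := ∏ x ∈ S, (X - C x))
  · apply Polynomial.Separable.squarefree
    exact (Polynomial.separable_prod_X_sub_C_iff' (s := S) (f := fun x : K => x)).2
      (fun x _ y _ h => h)
  · rw [← mul_one (aeval H (∏ x ∈ S, (X - C x))), ← hP.sum, Finset.mul_sum]
    apply Finset.sum_eq_zero
    intro i hi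
    rw [H_semisimple_aux hP lam _ hH hi, eval_prod, Finset.prod_eq_zero (i := lam i), zero_smul]
    · exact Finset.mem_image_of_mem _ hi
    · simp

/-- If `T` is the sum of a diagonal operator commuting with it and a nilpotent operator, then the
diagonal operator is a polynomial in `T`. -/
lemma H_mem {P : ℕ → Module.End K V} {m : ℕ} (hP : ProjSys P m) (lam : ℕ → K)
    {T H : Module.End K V} (hH : H = ∑ i ∈ range m, lam i • P i) (hT : ∀ i, Commute T (P i))
    (hn : IsNilpotent (T - H)) : H ∈ Algebra.adjoin K {T} := by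
  obtain ⟨ν, hν, σ, hσ, hνn, hσs, hT'⟩ := T.exists_isNilpotent_isSemisimple
  have hTH : Commute T H := by
    rw [hH]
    apply Commute.sum_right
    intro i _
    exact (hT i).smul_right _
  have hcomm : ∀ x ∈ Algebra.adjoin K {T}, Commute H x := by
    intro x hx
    have h1 : x ∈ Subalgebra.centralizer K {H} := by
      refine Algebra.adjoin_le ?_ hx
      rintro _ rfl
      rw [SetLike.mem_coe, Subalgebra.mem_centralizer_iff]
      rintro _ rfl
      exact hTH.eq.symm
    rw [Subalgebra.mem_centralizer_iff] at h1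
    exact h1 H rfl
  have hσH : Commute σ H := (hcomm σ hσ).symm
  have hνH : Commute ν H := (hcomm ν hν).symm
  have h2 : (H - σ).IsSemisimple :=
    Module.End.IsSemisimple.sub_of_commute (hcomm σ hσ) (H_semisimple hP lam hH) hσs
  have h3 : H - σ = ν - (T - H) := by rw [hT']; abel
  have h4 : IsNilpotent (H - σ) := by
    rw [h3]
    apply Commute.isNilpotent_sub _ hνn hn
    apply Commute.sub_right
    · have h5 : ν * T = T * ν := by
        have := Algebra.commute_of_mem_adjoin_self hν
        exact this.eq.symm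
      exact h5
    · exact hνH
  have h5 : H - σ = 0 := Module.End.eq_zero_of_isNilpotent_isSemisimple h4 h2
  rw [sub_eq_zero] at h5
  rw [h5]
  exact hσ

end Pool.Agent.R911.Kn
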